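import Pool.Agent.Y494.CC.Fin
import Pool.Agent.Y494.CC.Div
import Pool.Agent.Y494.CC.Coef
import Pool.Agent.Y494.CC.Anti
import Pool.Agent.Y494.CC.Zero
import Pool.Agent.Y494.CC.Top
import Pool.Agent.Y494.CC.Mul

set_option autoImplicit false

/-!
# MP_17d326_co: stretched Clebsch-Gordan coefficients of type `C_r`, for every `r ≥ 3`

The notions are those of `Pool/Agent/H471/CGDefs.lean` (used by the starting result `TypeC3`):
`CharRing r` is the group ring of the weight lattice `ℤ^r` of `sp_{2r}(ℂ)`, `alt μ` the Weyl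
alternant, `rho r = (r, …, 1)`, `Dominant`, `IsIrrChar κ χ` (Weyl's character formula
`χ · A_ρ = A_{κ+ρ}`) and `IsCG lam mu nu x` (`x` is the multiplicity of `V_nu` in `V_lam ⊗ V_mu`).
-/

open Polynomial Pool.Agent.H471.CG

namespace Pool.Agent.Results.MP_17d326_co.EveryRank

/-- **The positivity statement fails in every type `C_r`, `r ≥ 3`.**

(1) In every rank `r` and for all dominant weights `lam, mu, nu` there is exactly one integer `x`
with `IsCG lam mu nu x` (the Clebsch-Gordan coefficient is well defined).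

(2) Adding new first coordinates `A, B, A + B` (such that the weights remain dominant) does not
change the Clebsch-Gordan coefficient.

(3) For every `r ≥ 3` there are dominant integral weights `lam, mu, nu` of `sp_{2r}(ℂ)` whose
stretched Clebsch-Gordan coefficient `c t` satisfies `c 1 = 0` and `c 3 = 1`; so every polynomial
which agrees with `c` at the odd integers is not identically zero and has a negative
coefficient. -/
theorem result :
    (∀ (r : ℕ) (lam mu nu : Fin r → ℤ), Dominant lam → Dominant mu → Dominant nu →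
      ∃! x : ℤ, IsCG lam mu nu x) ∧
    (∀ (r : ℕ) (lam mu nu : Fin r → ℤ) (A B : ℤ), Dominant lam → Dominant mu → Dominant nu →
      0 ≤ A → 0 ≤ B → (∀ i, lam i ≤ A) → (∀ i, mu i ≤ B) → (∀ i, nu i ≤ A + B) →
      ∀ x : ℤ, IsCG (Fin.cons A lam : Fin (r + 1) → ℤ) (Fin.cons B mu) (Fin.cons (A + B) nu) x ↔
        IsCG lam mu nu x) ∧
    ∀ r : ℕ, 3 ≤ r → ∃ lam mu nu : Fin r → ℤ, Dominant lam ∧ Dominant mu ∧ Dominant nu ∧
      ∃ c : ℕ → ℤ,
        (∀ (t : ℕ) (x : ℤ),
          IsCG ((t : ℤ) • lam) ((t : ℤ) • mu) ((t : ℤ) • nu) x ↔ x = c t) ∧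
        c 1 = 0 ∧ c 3 = 1 ∧
        ∀ p : ℚ[X], (∀ t : ℕ, Odd t → p.eval (t : ℚ) = (c t : ℚ)) →
          p ≠ 0 ∧ ∃ k, p.coeff k < 0 := by
  have hC := Y494.CC.Coef.main
  have hD := Y494.CC.Div.main
  have hA := Y494.CC.Anti.main
  have hZ := Y494.CC.Zero.main
  have hT := Y494.CC.Top.main
  have hM := Y494.CC.Mul.main
  refine ⟨fun r lam mu nu hl hm hn => ?_, fun r lam mu nu A B hl hm hn hA0 hB0 h1 h2 h3 x => ?_,
    fun r hr => ?_⟩
  · exact ⟨Y494.CC.cg lam mu nu, (Y494.CC.isCG_iff hC hD hA hZ _ _ _ hl hm hn _).2 rfl,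
      fun y hy => (Y494.CC.isCG_iff hC hD hA hZ _ _ _ hl hm hn _).1 hy⟩
  · rw [Y494.CC.isCG_iff hC hD hA hZ _ _ _ (Y494.CC.dominant_cons hl h1 hA0)
      (Y494.CC.dominant_cons hm h2 hB0) (Y494.CC.dominant_cons hn h3 (by positivity)),
      Y494.CC.isCG_iff hC hD hA hZ _ _ _ hl hm hn,
      Y494.CC.cg_cons hC hD hT hM A B lam mu nu hl hm h1 hA0 h2 hB0]
  · refine ⟨Y494.CC.lamW r, Y494.CC.muW r, Y494.CC.nuW r, Y494.CC.dom_lam r, Y494.CC.dom_mu r,
      Y494.CC.dom_nu r, Y494.CC.c0, fun t x => ?_, Y494.CC.c0_one, Y494.CC.c0_three,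
      fun p hp => ?_⟩
    · rw [Y494.CC.isCG_iff hC hD hA hZ _ _ _ (Y494.CC.smul_dominant (Y494.CC.dom_lam r) t)
        (Y494.CC.smul_dominant (Y494.CC.dom_mu r) t) (Y494.CC.smul_dominant (Y494.CC.dom_nu r) t),
        Y494.CC.cg_all hC hD hA hZ hT hM t r hr]
    · apply Pool.Agent.Results.MP_17d326_co.TypeC3.neg_coeff
      · have := hp 1 (by decide)
        rwa [Y494.CC.c0_one, Int.cast_zero, Nat.cast_one] at this
      · have := hp 3 (by decide)
        rw [Y494.CC.c0_three] at this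
        have e : ((3 : ℕ) : ℚ) = 3 := by norm_num
        rw [e] at this
        rw [this]; norm_num

end Pool.Agent.Results.MP_17d326_co.EveryRank
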